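import Mathlib
import Pool.Agent.helper85.AR.Final

/-!
# MP_2e0e07_nt: one algebraic relation with point counts makes the adjoint geometric

Let `Γ` be a compact topological group with Haar measure `μ` and sets `frob v` of Frobenius
elements (for the question: a Galois group of the imaginary quadratic field `K`). Let `P i v`
(`i = 1, ..., r`) and `Q v` be polynomials over a field `E` and `a_v = - (coefficient of X in Q v)`.
Let `S` be a set of places such that for every closed set `C` of measure zero and every finite set
`T` of places some `v ∈ S \ T` has a Frobenius element outside `C` (for the question this holds by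
Chebotarev's theorem for every set `S` of positive upper density). Let `Φ` be a polynomial over
`E` in one variable `T` and further variables such that for all `v ∈ S`, after substitution of the
coefficients of the `P i v` for the further variables, `Φ` is a nonzero polynomial in `T` with
root `a_v`.

Theorem. For every embedding of `E` in an algebraically closed Hausdorff topological field `F` of
characteristic zero, and for all continuous representations `V i` (of any dimensions) and `ρ` (of
dimension two) over `F` compatible with `P i` and `Q`, `ρ` irreducible on every open subgroup:
there are an open subgroup `U` of `Γ` and `a`, `b` such that on `U` the conjugation action of `ρ`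
on the matrices of trace zero is a subquotient of `W^(⊗ a) ⊗ (W^∨)^(⊗ b)`, `W = V 1 ⊕ ⋯ ⊕ V r`.

Use for the question. Let `f` be a Bianchi newform without CM, `Q v` its Hecke polynomials, `P i v`
the characteristic polynomials of Frobenius on cohomology groups of varieties over `K`. If the
Hecke eigenvalues `a_v(f)` satisfy one fixed algebraic relation with the coefficients of the `P i v`
(for instance with numbers of points of varieties over the residue fields) on a set of places of
positive upper density, then for every `p` the adjoint representation `ad^0 ρ_(f,p)` arises from
etale cohomology over a finite extension of `K`, hence (Weil restriction) over `K`.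

Proof (folder `Pool/Agent/helper85/AR`). The algebra of matrix coefficients of `W ⊕ ρ` is
noetherian; a zero set of positive measure which is minimal is a coset of an open subgroup `U`
(the group of the component). On a coset `s U` the relation holds identically and is not trivial,
so the coefficients of `ρ` on `U` are algebraic, hence integral (no stable ideals) over the algebra
of `W`; the characters of the algebra of `W ⊕ ad^0 ρ` over the trivial character of the algebra of
`W` form a finite normal set, hence are centralised by a subgroup of finite index, are scalars and
are trivial by a bracket identity; the trace argument of `Pool/Agent/helper6/GO` gives the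
coefficients of `ad^0 ρ`.
-/

namespace Pool.Agent.Results.MP_2e0e07_nt.AlgebraicRelation

open Matrix Polynomial Pool.Agent.GO Pool.Agent.AR MeasureTheory

theorem result {Γ Place E F : Type*} [Group Γ] [TopologicalSpace Γ]
    [IsTopologicalGroup Γ] [CompactSpace Γ] [MeasurableSpace Γ] [BorelSpace Γ]
    (μ : Measure Γ) [μ.IsHaarMeasure] (frob : Place → Set Γ) [Field E]
    {r : ℕ} {n : Fin r → ℕ} (P : Fin r → Place → E[X]) (Q : Place → E[X])
    -- the set `S` is not negligible
    (S : Set Place)
    (hS : ∀ (C : Set Γ) (T : Set Place), IsClosed C → μ C = 0 → T.Finite →
      ∃ v ∈ S, v ∉ T ∧ ∃ s ∈ frob v, s ∉ C)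
    -- the algebraic relation at the places of `S`
    (Φ : (MvPolynomial (Fin r × ℕ) E)[X])
    (hΦ : ∀ v ∈ S, Φ.map (MvPolynomial.eval fun k => (P k.1 v).coeff k.2) ≠ 0 ∧
      (Φ.map (MvPolynomial.eval fun k => (P k.1 v).coeff k.2)).IsRoot (-(Q v).coeff 1))
    -- compatible representations
    [Field F] [IsAlgClosed F] [CharZero F] [TopologicalSpace F] [IsTopologicalRing F] [T2Space F]
    (ι : E →+* F) (V : (i : Fin r) → Γ →* Matrix (Fin (n i)) (Fin (n i)) F)
    (ρ : Γ →* Matrix (Fin 2) (Fin 2) F)
    (hVc : ∀ i, Continuous (V i)) (hρc : Continuous ρ)
    (hV : ∀ i, Compatible frob ι (P i) (V i)) (hρ : Compatible frob ι Q ρ)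
    (hirr : ∀ U : Subgroup Γ, IsOpen (U : Set Γ) → Irred (fun u : U => ρ u)) :
    ∃ U : Subgroup Γ, IsOpen (U : Set Γ) ∧ ∃ a b : ℕ,
      AdSubquotient U ρ (tens (dirSum V) a b) :=
  main_compatible μ frob P Q S hS Φ hΦ ι V ρ hVc hρc hV hρ hirr

end Pool.Agent.Results.MP_2e0e07_nt.AlgebraicRelation
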