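import Pool.Agent.helper7.EP.AllA

/-!
# MP_ebc808_nt: at least `c X^(3/4)/(log X)^(3/2)` even values of the partition function below every large `X`
-/

set_option autoImplicit false

open Finset

namespace Pool.Agent.Results.MP_ebc808_nt.EvenThreeQuarters

/-- There is `c > 0` such that for all large `X` at least `c X^(3/4)/(log X)^(3/2)` of the
numbers `n ≤ X` have an even number of partitions. -/
theorem result : ∃ c : ℝ, 0 < c ∧ ∃ X₀ : ℕ, ∀ X : ℕ, X₀ ≤ X →
    c * (X : ℝ) ^ (3 / 4 : ℝ) / Real.log X ^ (3 / 2 : ℝ) ≤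
      (#{n ∈ range (X + 1) | Even (Fintype.card (Nat.Partition n))} : ℝ) :=
  Pool.Agent.EP.all_RESA

end Pool.Agent.Results.MP_ebc808_nt.EvenThreeQuarters
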