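import Pool.Agent.helper82.OG.All
import Pool.Agent.helper82.OG.EVN

/-!
# MP_ebc808_nt: golden ratio exponent for the even and for the odd values of the partition function
-/

set_option autoImplicit false

open Finset

namespace Pool.Agent.Results.MP_ebc808_nt.GoldenRatio

/-- For each parity class and every `ε > 0`: every large interval `[X^(1/10), X]` contains an `x` such that
at least `x^((1+√5)/4 - ε)` of the numbers `n ≤ x` have `p(n)` in this parity class. -/
theorem result : ∀ e : ℕ, e < 2 → ∀ ε : ℝ, 0 < ε → ∃ X₀ : ℕ, ∀ X : ℕ, X₀ ≤ X →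
    ∃ x : ℕ, (X : ℝ) ^ (1 / 10 : ℝ) ≤ x ∧ x ≤ X ∧ (x : ℝ) ^ ((1 + √5) / 4 - ε) ≤
      (#{n ∈ range (x + 1) | Fintype.card (Nat.Partition n) % 2 = e} : ℝ) := by
  intro e he ε hε
  rcases Nat.lt_or_ge e 1 with h | h
  · obtain ⟨X₀, h0⟩ := Pool.Agent.OG.EVN Pool.Agent.EP.all_RESB2 ε hε
    refine ⟨max X₀ 1, fun X hX => ?_⟩
    obtain ⟨x, h1, h2, h3⟩ := h0 X ((le_max_left _ _).trans hX)
    have hX1 : (1 : ℝ) ≤ (X : ℝ) := by exact_mod_cast (le_max_right X₀ 1).trans hX
    refine ⟨x, (Real.rpow_le_rpow_of_exponent_le hX1 (by norm_num)).trans h1, h2, h3.trans ?_⟩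
    have he0 : e = 0 := by omega
    subst he0
    unfold Pool.Agent.EP.sE
    simp only [Nat.even_iff]
    exact le_rfl
  · obtain ⟨X₀, h0⟩ := Pool.Agent.OG.all_RES ε hε
    refine ⟨X₀, fun X hX => ?_⟩
    obtain ⟨x, h1, h2, h3⟩ := h0 X hX
    refine ⟨x, h1, h2, h3.trans ?_⟩
    have he1 : e = 1 := by omega
    subst he1
    unfold Pool.Agent.OG.sO
    simp only [Nat.odd_iff]
    exact le_rfl

end Pool.Agent.Results.MP_ebc808_nt.GoldenRatio
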