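import Pool.Agent.helper82.OG.All

/-!
# MP_ebc808_nt: golden ratio exponent for the odd values of the partition function
-/

set_option autoImplicit false

open Finset

namespace Pool.Agent.helper67.Reserve.OddGoldenRatioEbc

/-- For every `ε > 0` every large interval `[X^(1/10), X]` contains an `x` such that at least
`x^((1+√5)/4 - ε)` of the numbers `n ≤ x` have `p(n)` odd. -/
theorem result : ∀ ε : ℝ, 0 < ε → ∃ X₀ : ℕ, ∀ X : ℕ, X₀ ≤ X →
    ∃ x : ℕ, (X : ℝ) ^ (1 / 10 : ℝ) ≤ x ∧ x ≤ X ∧ (x : ℝ) ^ ((1 + √5) / 4 - ε) ≤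
      (#{n ∈ range (x + 1) | Odd (Fintype.card (Nat.Partition n))} : ℝ) :=
  Pool.Agent.OG.all_RES

end Pool.Agent.helper67.Reserve.OddGoldenRatioEbc
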