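import Mathlib
import Pool.Agent.helper1.GM.Transfer

/-!
# MP_2e0e07_nt: geometric origin is detected by one odd monomial in the Satake parameters

Let `Γ` be a topological group with sets `frob v` of Frobenius elements (for the question: the
absolute Galois group of the imaginary quadratic field `K`, `v` the primes of `K`). Let `P v` and
`Q v` be polynomials over a field `E`, for the question: `P v` the characteristic polynomial of
Frobenius on `H^i(X, Q_p-bar)(j)`, which has coefficients in `Q` and does not depend on `p`
(Deligne), and `Q v = (X - α)(X - β)` the Hecke polynomial of a Bianchi newform `f`, over the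
Hecke field `E`.

Theorem. Suppose that for all `v` in a set of places whose Frobenius elements outside any finite
set are dense (for instance a set of density one, Chebotarev) there is an ODD multiplicative
relation of bounded size between the roots of `P v` and the two roots `α`, `β` of `Q v`: a
quotient of two products of at most `B` roots of `P v` equals `α ^ a * β ^ b`, `a - b` odd,
where `a`, `b`, the roots and their numbers may depend on `v` and only have to be bounded. Then
for every embedding of `E` in an algebraically closed topological field of characteristic zero and
all continuous representations `V`, `ρ` compatible with `P`, `Q`, `ρ` irreducible and not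
dihedral, `ρ` is a subquotient of a tensor construction of `V ⊕ det ρ`.

Use for the question. The relation is between numbers in any field containing `E` (for instance
complex numbers) and does not involve `p`. The determinant of `ρ_(f,p)` is a finite order
character times a power of the cyclotomic character and arises from etale cohomology, and so do
the tensor constructions of `V ⊕ det ρ` when `V = H^i(X, Q_p-bar)(j)` (Kuenneth formula, Poincare
duality). `f` not of CM type means that `ρ_(f,p)` is not dihedral. So: if for some `X`, `i`, `j`
and almost all primes `v` (or a set of density one) some monomial `α ^ a * β ^ b` with `a - b`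
odd, for example an eigenvalue of an odd symmetric power of `ρ_(f,p)` twisted by powers of the
determinant, is an eigenvalue of Frobenius on `H^i(X)(j)`, or only a bounded product of
eigenvalues and their inverses, then `ρ_(f,p)` arises from etale cohomology for ALL `p`, and so do
the representations of all conjugates of `f`.

Odd cannot be replaced by even: `ad ρ` does not see `-1`. Dense cannot be replaced by positive
density: let `V = ρ ⊗ ω`, where `ω` is orthogonal of even dimension, independent of `ρ` and of
determinant `-1` on half of the group; there `1` and `-1` are eigenvalues of `ω`, so that `α` and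
`β` are eigenvalues of `V`, but `V ⊕ det ρ` does not see the element `(-1, -1)`.

The proof (folder `Pool/Agent/helper1/GM`, on top of `Pool/Agent/helper6/GO`): the relation is a
closed condition, so it holds on the Zariski closure `G` of the image of `V ⊕ ρ`; on the kernel
`N` of `V ⊕ det ρ` in `G` every element has an eigenvalue which is a root of unity of bounded odd
order and determinant one; a finite subgroup of odd exponent of `SL_2` is not irreducible (sum of
the traces of squares against Schur orthogonality), so the image of `N` in `GL_2` is finite
abelian and, `ρ` not being dihedral, trivial; integrality of the trace of `ρ` over the algebra `A`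
of matrix coefficients of the tensor constructions of `V ⊕ det ρ`, and the uniqueness of the
extension of evaluation maps, give that the matrix coefficients of `ρ` lie in `A`.
-/

namespace Pool.Agent.Results.MP_2e0e07_nt.OddMonomials

open Matrix Polynomial Pool.Agent.GO Pool.Agent.GM

/-- The representation `V` over `F` is compatible with the polynomials `P v` over `E` along
`ι : E → F`: for all places `v` outside a finite set and all Frobenius elements `s` at `v` the
characteristic polynomial of `V s` is the image of `P v`. -/
def Compatible {Γ Place E F d : Type*} [Group Γ] [Field E] [Field F] [Fintype d] [DecidableEq d]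
    (frob : Place → Set Γ) (ι : E →+* F) (P : Place → E[X]) (V : Γ →* Matrix d d F) : Prop :=
  ∃ T : Set Place, T.Finite ∧ ∀ v ∉ T, ∀ s ∈ frob v, (V s).charpoly = (P v).map ι

theorem result {Γ Place E F₀ F : Type*} [Group Γ] [TopologicalSpace Γ] [IsTopologicalGroup Γ]
    [Field E] (frob : Place → Set Γ) (P Q : Place → E[X])
    -- the set of places at which a relation is required
    (S : Set Place) (hS : ∀ T : Set Place, T.Finite → Dense (⋃ v ∈ S \ T, frob v))
    -- odd relations in some field containing `E`
    [Field F₀] (ι₀ : E →+* F₀) (B : ℕ)
    (h : ∃ T : Set Place, T.Finite ∧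
      ∀ v ∈ S \ T, OddRelation B ((P v).map ι₀) ((Q v).map ι₀))
    -- a pair of compatible representations
    [Field F] [IsAlgClosed F] [CharZero F] [TopologicalSpace F] [IsTopologicalRing F] [T2Space F]
    (ι : E →+* F) {n : ℕ}
    (V : Γ →* Matrix (Fin n) (Fin n) F) (ρ : Γ →* Matrix (Fin 2) (Fin 2) F)
    (hVcont : Continuous V) (hρcont : Continuous ρ)
    (hV : Compatible frob ι P V) (hρ : Compatible frob ι Q ρ)
    (hirr : Irred (fun g => ρ g)) (hd : ¬ PermutesTwoLines (fun g => ρ g)) :
    ∃ a b : ℕ, IsSubquotient (fun g => ρ g) (tens (withDet V ρ) a b) := by
  obtain ⟨T₁, hT₁, h₁⟩ := h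
  obtain ⟨T₂, hT₂, h₂⟩ := hV
  obtain ⟨T₃, hT₃, h₃⟩ := hρ
  have hT : (T₁ ∪ T₂ ∪ T₃).Finite := (hT₁.union hT₂).union hT₃
  refine odd_dense V ρ hVcont hρcont hirr hd B (⋃ v ∈ S \ (T₁ ∪ T₂ ∪ T₃), frob v) (hS _ hT) ?_
  intro s hs
  simp only [Set.mem_iUnion] at hs
  obtain ⟨v, hv, hsv⟩ := hs
  have hv1 : v ∉ T₁ := fun hh => hv.2 (by simp [hh])
  have hv2 : v ∉ T₂ := fun hh => hv.2 (by simp [hh])
  have hv3 : v ∉ T₃ := fun hh => hv.2 (by simp [hh])
  rw [h₂ v hv2 s hsv, h₃ v hv3 s hsv]
  refine oddRelation_transfer ι₀ ι B (P v) (Q v) ?_ (h₁ v ⟨hv.1, hv1⟩)
  intro h0
  have := h₂ v hv2 s hsv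
  rw [h0, Polynomial.map_zero] at this
  exact (Matrix.charpoly_monic (V s)).ne_zero this

end Pool.Agent.Results.MP_2e0e07_nt.OddMonomials
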