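import Pool.Agent.helper67.TSC.All

/-!
# MP_ebc808_nt: the parities of the partition function at two scales
-/

set_option autoImplicit false

open Finset

namespace Pool.Agent.helper67.Reserve.TwoScalesV1Ebc

/-- Let `N_e(x)` be the number of `n ≤ x` with `p(n) = e mod 2`. There is `C` such that for all large `X`,
all `Z ≤ X` and all `e, f ∈ {0, 1}`, not both `1`: `X √Z ≤ (log X)^C N_e(X) max(N_f(Z), √X)`. -/
theorem result : ∃ C X₀ : ℕ, ∀ X Z e f : ℕ, X₀ ≤ X → Z ≤ X → e < 2 → f < 2 → ¬ (e = 1 ∧ f = 1) →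
    (X : ℝ) * √Z ≤ Real.log X ^ C *
      ((#{n ∈ range (X + 1) | Fintype.card (Nat.Partition n) % 2 = e} : ℝ) *
        max (#{n ∈ range (Z + 1) | Fintype.card (Nat.Partition n) % 2 = f} : ℝ) (√X)) :=
  Pool.Agent.TSC.all_FIN

end Pool.Agent.helper67.Reserve.TwoScalesV1Ebc
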