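import Pool.Agent.helper67.GB.All

/-!
# MP_ebc808_nt: the parities of the partition function at two scales, and both parities on every large scale
-/

set_option autoImplicit false

open Finset

namespace Pool.Agent.helper67.Reserve.TwoScalesV2Ebc

/-- Let `N_e(x)` be the number of `n ≤ x` with `p(n) = e mod 2`. (i) There is `C` such that for all large `X`,
all `Z ≤ X` and all `e, f ∈ {0, 1}`, not both `1`: `X √Z ≤ (log X)^C N_e(X) max(N_f(Z), √X)`.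
(ii) For every `ε > 0` every large interval `[X^(1/10), X]` contains an `x` with
`N_0(x), N_1(x) ≥ x^((1+√5)/4 - ε)`. -/
theorem result :
    (∃ C X₀ : ℕ, ∀ X Z e f : ℕ, X₀ ≤ X → Z ≤ X → e < 2 → f < 2 → ¬ (e = 1 ∧ f = 1) →
      (X : ℝ) * √Z ≤ Real.log X ^ C *
        ((#{n ∈ range (X + 1) | Fintype.card (Nat.Partition n) % 2 = e} : ℝ) *
          max (#{n ∈ range (Z + 1) | Fintype.card (Nat.Partition n) % 2 = f} : ℝ) (√X))) ∧
    (∀ ε : ℝ, 0 < ε → ∃ X₀ : ℕ, ∀ X : ℕ, X₀ ≤ X →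
      ∃ x : ℕ, (X : ℝ) ^ (1 / 10 : ℝ) ≤ x ∧ x ≤ X ∧ ∀ e : ℕ, e < 2 →
        (x : ℝ) ^ ((1 + √5) / 4 - ε) ≤
          (#{n ∈ range (x + 1) | Fintype.card (Nat.Partition n) % 2 = e} : ℝ)) :=
  ⟨Pool.Agent.TSC.all_FIN, Pool.Agent.GB.all_GB⟩

end Pool.Agent.helper67.Reserve.TwoScalesV2Ebc
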